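import Pool.Agent.Helper65.KPV.Asm

set_option autoImplicit false

namespace Pool.Agent.Helper65.KPV

open Pool.Agent.Helper5.KPA Pool.Agent.Helper52.KP

theorem hEQM (hDVR : StDVR) : StEQM := by
  intro S _ _ _ B ξ ζ hNB hξ hζ hle t ht htζ
  obtain ⟨v, hv⟩ := hDVR S B ζ hNB hζ
  obtain ⟨y, hy, hy0, hy1⟩ := hv.unif
  have hyζ : y * ζ ∈ B := (hv.pos y hy hy0).1 (by omega)
  have hζ0 : ζ ≠ 0 := by
    rintro rfl
    exact hζ.nB B.zero_mem
  have hvu : v (y * ζ) = 0 := by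
    rw [hv.mul y ζ hy0 hζ0 (QB_of_mem hy) hζ.qB, hv.xi, hy1]; norm_num
  have hu0 : y * ζ ≠ 0 := mul_ne_zero hy0 hζ0
  have huζ : y * ζ * ζ ∉ B := (hv.v_zero_iff _ hyζ hu0).1 hvu
  obtain ⟨s, hs, hs0, hsξ⟩ := hξ.qB
  obtain ⟨j, hj⟩ : ∃ j : ℕ, v s = j := ⟨(v s).toNat, (Int.toNat_of_nonneg (hv.nonneg s hs hs0)).symm⟩
  have hQ : QB B (s * ζ ^ j) := (QB_of_mem hs).mul (hζ.qB.pow j)
  have hne : s * ζ ^ j ≠ 0 := mul_ne_zero hs0 (pow_ne_zero _ hζ0)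
  have hv0 : v (s * ζ ^ j) = 0 := by
    rw [hv.mul _ _ hs0 (pow_ne_zero _ hζ0) (QB_of_mem hs) (hζ.qB.pow j),
      hv.v_pow ζ hζ0 hζ.qB j, hv.xi, hj]
    ring
  obtain ⟨h, hh, hh1, hh2⟩ := hv.loc _ hne hQ hv0.ge
  have hh0 : h ≠ 0 := by
    rintro rfl
    exact hh1 (by rw [zero_mul]; exact B.zero_mem)
  have hvh : v h = 0 := (hv.v_zero_iff h hh hh0).2 hh1
  have hvh' : v (h * (s * ζ ^ j)) = 0 := by
    rw [hv.mul _ _ hh0 hne (QB_of_mem hh) hQ, hvh, hv0]; norm_num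
  have hh'ζ : h * (s * ζ ^ j) * ζ ∉ B :=
    (hv.v_zero_iff _ hh2 (mul_ne_zero hh0 hne)).1 hvh'
  have hh'ξ : h * (s * ζ ^ j) * ξ ∉ B := fun hc => hh'ζ (hle _ hh2 hc)
  -- y is in q(xi)
  have hprodξ : h * (s * ζ ^ j) * y ^ j * ξ ∈ B := by
    have h1 : h * (s * ζ ^ j) * y ^ j * ξ = h * (y * ζ) ^ j * (s * ξ) := by
      rw [mul_pow]; ring
    rw [h1]
    exact B.mul_mem (B.mul_mem hh (B.pow_mem hyζ j)) hsξ
  have hyj : y ^ j * ξ ∈ B := by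
    rcases hξ.prime _ hh2 (y ^ j) (B.pow_mem hy j) hprodξ with h1 | h1
    · exact absurd h1 hh'ξ
    · exact h1
  have hyξ : y * ξ ∈ B := by
    have key : ∀ i : ℕ, y ^ i * ξ ∈ B → y * ξ ∈ B := by
      intro i
      induction i with
      | zero =>
        intro h1
        rw [pow_zero, one_mul] at h1
        exact absurd h1 hξ.nB
      | succ i ih =>
        intro h1
        rw [pow_succ] at h1
        rcases hξ.prime _ (B.pow_mem hy i) y hy h1 with h2 | h2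
        · exact ih h2
        · exact h2
    exact key j hyj
  have huξ : y * ζ * ξ ∉ B := fun hc => huζ (hle _ hyζ hc)
  have h1 : y * ζ * t * ξ ∈ B := by
    have h2 : y * ζ * t * ξ = (t * ζ) * (y * ξ) := by ring
    rw [h2]
    exact B.mul_mem htζ hyξ
  rcases hξ.prime _ hyζ t ht h1 with h2 | h2
  · exact absurd h2 huξ
  · exact h2

end Pool.Agent.Helper65.KPV
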