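import Pool.Agent.Helper65.KPV.Asm
import Pool.Agent.Helper10.KPV.M_DVR
import Pool.Agent.Helper16.KPV.M_UNQ
import Pool.Agent.Helper65.KPV.M_EQM
import Pool.Agent.Helper78.KPV.M_MIN
import Pool.Agent.Helper15.KPV.M_MEM
import Pool.Agent.Helper8.KPV.M_PRM
import Pool.Agent.Helper42.KPV.M_INV
import Pool.Agent.Helper64.KPV.M_INW
import Pool.Agent.Helper99.KPV.M_VAN
import Pool.Agent.Helper91.KPV.M_GRO
import Pool.Agent.Helper7.KPV.M_BAA
import Pool.Agent.Helper81.KPV.M_BAB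
import Pool.Agent.Helper32.KPV.M_BAC
import Pool.Agent.Helper70.KPV.M_ROT

/-!
# Project KP, chapter A, part V: all modules together
-/

set_option autoImplicit false

namespace Pool.Agent.Helper65.KPV

open Pool.Agent.Helper52.KP Pool.Agent.Helper5.KPA

theorem aDVR : StDVR := Pool.Agent.Helper10.KPV.hDVR
theorem aUNQ : StUNQ := Pool.Agent.Helper16.KPV.hUNQ
theorem aEQM : StEQM := hEQM aDVR
theorem aMIN : StMIN := Pool.Agent.Helper78.KPV.hMIN
theorem aMEM : StMEM := Pool.Agent.Helper15.KPV.hMEM aEQM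
theorem aPRM : StPRM := Pool.Agent.Helper8.KPV.hPRM
theorem aINV : StINV := Pool.Agent.Helper42.KPV.hINV aPRM
theorem aINW : StINW := Pool.Agent.Helper64.KPV.hINW aUNQ
theorem aVAN : StVAN := Pool.Agent.Helper99.KPV.hVAN
theorem aGRO : StGRO := Pool.Agent.Helper91.KPV.hGRO
theorem aBAA (hAGR : StAGR) : StBAA := Pool.Agent.Helper7.KPV.hBAA hAGR aVAN
theorem aBAB (hAGR : StAGR) : StBAB := Pool.Agent.Helper81.KPV.hBAB hAGR (aBAA hAGR)
theorem aBAC (hAGR : StAGR) : StBAC := Pool.Agent.Helper32.KPV.hBAC hAGR (aBAA hAGR)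
theorem aROT (hAGR : StAGR) : StROT := Pool.Agent.Helper70.KPV.hROT hAGR (aBAA hAGR)

/-- PART V -/
theorem aAVL (hAGR : StAGR) (hANN : StANN) (hATD : StATD) : StAVL :=
  hAVL hAGR hANN hATD aDVR aMIN aMEM aINV aINW aVAN aGRO (aBAA hAGR) (aBAB hAGR) (aBAC hAGR)
    (aROT hAGR)

end Pool.Agent.Helper65.KPV
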