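import Pool.Agent.Helper65.KPV.St

/-!
# Project KP, chapter A, part V: assembly
-/

set_option autoImplicit false

namespace Pool.Agent.Helper65.KPV

open Pool.Agent.Helper52.KP Pool.Agent.Helper5.KPA Polynomial

section

variable {S : Type} [CommRing S] [IsDomain S] [Algebra ℂ S] {B : Subalgebra ℂ S} {ξ : S}
  {v : S → ℤ}

theorem QB_of_mem {x : S} (hx : x ∈ B) : QB B x :=
  ⟨1, B.one_mem, one_ne_zero, by rwa [one_mul]⟩

theorem PV.v_one (h : PV B ξ v) : v 1 = 0 := by
  have h1 := h.mul 1 1 one_ne_zero one_ne_zero (QB_of_mem B.one_mem) (QB_of_mem B.one_mem)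
  rw [mul_one] at h1
  omega

theorem PV.v_unit (h : PV B ξ v) (x y : S) (hx : x ∈ B) (hy : y ∈ B) (hxy : x * y = 1) :
    v x = 0 := by
  have hx0 : x ≠ 0 := left_ne_zero_of_mul_eq_one hxy
  have hy0 : y ≠ 0 := right_ne_zero_of_mul_eq_one hxy
  have h1 := h.mul x y hx0 hy0 (QB_of_mem hx) (QB_of_mem hy)
  rw [hxy, h.v_one] at h1
  have h2 := h.nonneg x hx hx0
  have h3 := h.nonneg y hy hy0
  omega

theorem PV.v_cst (h : PV B ξ v) (c : ℂ) (hc : c ≠ 0) : v (algebraMap ℂ S c) = 0 := by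
  refine h.v_unit _ (algebraMap ℂ S c⁻¹) (B.algebraMap_mem _) (B.algebraMap_mem _) ?_
  rw [← map_mul, mul_inv_cancel₀ hc, map_one]

theorem PV.v_zero_iff (h : PV B ξ v) (x : S) (hx : x ∈ B) (hx0 : x ≠ 0) :
    v x = 0 ↔ x * ξ ∉ B := by
  have h1 := h.nonneg x hx hx0
  have h2 := h.pos x hx hx0
  constructor
  · intro h3 h4
    have := h2.2 h4
    omega
  · intro h3
    by_contra h4
    exact h3 (h2.1 (by omega))

theorem QB.mul {x y : S} (hx : QB B x) (hy : QB B y) : QB B (x * y) := by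
  obtain ⟨s, hs, hs0, hsx⟩ := hx
  obtain ⟨t, ht, ht0, hty⟩ := hy
  refine ⟨s * t, B.mul_mem hs ht, mul_ne_zero hs0 ht0, ?_⟩
  have : s * t * (x * y) = (s * x) * (t * y) := by ring
  rw [this]
  exact B.mul_mem hsx hty

theorem QB.pow {x : S} (hx : QB B x) (n : ℕ) : QB B (x ^ n) := by
  induction n with
  | zero => rw [pow_zero]; exact QB_of_mem B.one_mem
  | succ n ih => rw [pow_succ]; exact ih.mul hx

theorem PV.v_pow (h : PV B ξ v) (x : S) (hx0 : x ≠ 0) (hx : QB B x) (n : ℕ) :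
    v (x ^ n) = n * v x := by
  induction n with
  | zero => simp [h.v_one]
  | succ n ih =>
    rw [pow_succ, h.mul _ _ (pow_ne_zero _ hx0) hx0 (hx.pow n) hx, ih]
    push_cast; ring

theorem PV.v_smul (h : PV B ξ v) (c : ℂ) (hc : c ≠ 0) (x : S) (hx0 : x ≠ 0) (hx : QB B x) :
    v (c • x) = v x := by
  rw [Algebra.smul_def, h.mul _ _ ?_ hx0 (QB_of_mem (B.algebraMap_mem c)) hx, h.v_cst c hc,
    zero_add]
  exact (map_ne_zero_iff _ (FaithfulSMul.algebraMap_injective ℂ S)).2 hc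

theorem PV.v_prod (h : PV B ξ v) {ι : Type} (s : Finset ι) (f : ι → S)
    (hf : ∀ i ∈ s, f i ∈ B ∧ f i ≠ 0) :
    (∏ i ∈ s, f i) ∈ B ∧ (∏ i ∈ s, f i) ≠ 0 ∧ v (∏ i ∈ s, f i) = ∑ i ∈ s, v (f i) := by
  classical
  induction s using Finset.induction_on with
  | empty => exact ⟨by simpa using B.one_mem, by simp, by simp [h.v_one]⟩
  | insert i s hi ih =>
    obtain ⟨h1, h2, h3⟩ := ih fun j hj => hf j (Finset.mem_insert_of_mem hj)
    obtain ⟨h4, h5⟩ := hf i (Finset.mem_insert_self i s)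
    rw [Finset.prod_insert hi, Finset.sum_insert hi]
    exact ⟨B.mul_mem h4 h1, mul_ne_zero h5 h2, by
      rw [h.mul _ _ h5 h2 (QB_of_mem h4) (QB_of_mem h1), h3]⟩

theorem PV.v_sum (h : PV B ξ v) (n : ℕ) (f : ℕ → S) (j : ℤ)
    (hf : ∀ k, k < n → f k = 0 ∨ (QB B (f k) ∧ j ≤ v (f k)))
    (hq : ∀ m, m ≤ n → QB B (∑ k ∈ Finset.range m, f k)) :
    (∑ k ∈ Finset.range n, f k) = 0 ∨ j ≤ v (∑ k ∈ Finset.range n, f k) := by
  induction n with
  | zero => left; simp
  | succ n ih =>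
    have ih' := ih (fun k hk => hf k (by omega)) (fun m hm => hq m (by omega))
    rw [Finset.sum_range_succ]
    rcases hf n (Nat.lt_succ_self n) with h1 | ⟨h1, h2⟩
    · rw [h1, add_zero]; exact ih'
    · by_cases h3 : f n = 0
      · rw [h3, add_zero]; exact ih'
      rcases ih' with h4 | h4
      · rw [h4, zero_add]; exact Or.inr h2
      · by_cases h5 : (∑ k ∈ Finset.range n, f k) = 0
        · rw [h5, zero_add]; exact Or.inr h2
        by_cases h6 : (∑ k ∈ Finset.range n, f k) + f n = 0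
        · exact Or.inl h6
        right
        have h7 := h.add _ _ h5 h3 h6 (hq n (by omega)) h1
        exact (le_min h4 h2).trans h7

end

/-- decomposition of an element of a sum of subspaces -/
theorem dec {S : Type} [AddCommGroup S] [Module ℂ S] (G : ℕ → Submodule ℂ S) (s : S)
    (hs : s ∈ ⨆ k, G k) : ∃ (n : ℕ) (f : ℕ → S), (∀ k, f k ∈ G k) ∧
      s = ∑ k ∈ Finset.range n, f k := by
  obtain ⟨f, hf, rfl⟩ := (Submodule.mem_iSup_iff_exists_finsupp _ _).1 hs
  refine ⟨f.support.sup id + 1, f, hf, ?_⟩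
  rw [Finsupp.sum]
  refine Finset.sum_subset (fun k hk => ?_) (fun k _ hk => ?_)
  · have h1 : id k ≤ f.support.sup id := Finset.le_sup hk
    simp only [id] at h1
    rw [Finset.mem_range]
    omega
  · simpa using hk

theorem hAVL (hAGR : StAGR) (hANN : StANN) (hATD : StATD) (hDVR : StDVR) (hMIN : StMIN)
    (hMEM : StMEM) (hINV : StINV) (hINW : StINW) (hVAN : StVAN) (hGRO : StGRO) (hBAA : StBAA)
    (hBAB : StBAB) (hBAC : StBAC) (hROT : StROT) : StAVL := by
  classical
  intro C hC r F hF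
  obtain ⟨hG, -, -, -⟩ := hAGR C hC r F hF
  obtain ⟨hB1, hB2, hB3, hXB, hX0, hB6⟩ := hBAA C hC r F hF
  have hNB := hBAB C hC r F hF
  have hQ := hBAC C hC r F hF
  obtain ⟨hR1, hR2, hrt, hzt⟩ := hROT C hC r F hF
  have hBB : ∀ k, ∀ x ∈ BB F k, x ∈ BA F := by
    intro k x hx
    have h1 : BB F k ≤ Subalgebra.toSubmodule (BA F) := by
      rw [hB1]; exact le_iSup (fun k => BB F k) k
    exact h1 hx
  have hXne : (X : QQ C.m) ≠ 0 := X_ne_zero
  have hQX : QB (BA F) (X : QQ C.m) := hQ 0 X hX0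
  obtain ⟨h, ξ, hM⟩ := hMIN (QQ C.m) (BA F) X hNB hQX
  have hvex : ∀ i, ∃ v : QQ C.m → ℤ, PV (BA F) (ξ i) v := fun i =>
    hDVR (QQ C.m) (BA F) (ξ i) hNB (hM.px i)
  choose v hv using hvex
  have hXneg : ∀ i, v i X < 0 := by
    intro i
    by_contra hcon
    push Not at hcon
    obtain ⟨t, ht, ht1, ht2⟩ := (hv i).loc X hXne hQX hcon
    exact ht1 (hM.le i t ht ht2)
  have hd : 0 < C.n * r := Nat.mul_pos hC.hn hF.hr
  -- invariance under the two actions
  have inv1 := fun i (c : ℂ) (hc : c ≠ 0) => hINW (QQ C.m) (BA F) X (ξ i) (v i) (rt C.m) (hv i) hR1 c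
    hc (hINV (QQ C.m) (BA F) X h ξ (rt C.m) hM hR1 c hc i)
  have inv2 := fun (c : ℂ) (hc : c ≠ 0) => hINV (QQ C.m) (BA F) X h ξ (zt C.w) hM hR2 c hc
  -- homogeneous components
  have hcomp : ∀ (i : Fin h) (n : ℕ) (f : ℕ → QQ C.m), (∀ k, f k ∈ BB F k) →
      (∑ k ∈ Finset.range n, f k) * ξ i ∈ BA F → ∀ k, k < n → f k * ξ i ∈ BA F := by
    intro i n f hf hs
    let W : Submodule ℂ (QQ C.m) :=
      (Subalgebra.toSubmodule (BA F)).comap (LinearMap.mulRight ℂ (ξ i))
    have hW : ∀ x, x ∈ W ↔ x * ξ i ∈ BA F := fun x => Iff.rfl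
    refine fun k hk => (hW _).1 (hVAN (QQ C.m) W n f (fun c hc => ?_) k hk)
    obtain ⟨c', hc'⟩ := IsAlgClosed.exists_pow_nat_eq c hd
    have hc'0 : c' ≠ 0 := by
      rintro rfl
      rw [zero_pow hd.ne'] at hc'
      exact hc hc'.symm
    have h1 : zt C.w c' (∑ k ∈ Finset.range n, f k) = ∑ l ∈ Finset.range n, c ^ l • f l := by
      rw [map_sum]
      refine Finset.sum_congr rfl fun l _ => ?_
      rw [hzt c' (C.n * r * l) (f l) (hB3 l (hf l)), pow_mul, hc']
    rw [hW, ← h1]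
    refine (inv2 c' hc'0 i _ ?_).1 hs
    exact Subalgebra.sum_mem _ fun l _ => hBB l _ (hf l)
  -- Noether normalization
  obtain ⟨e, a, ha⟩ := hANN (QQ C.m) (BB F) hG
  have he := (hATD C hC r F hF).1 e a ha
  obtain ⟨m', hm'⟩ : ∃ m', C.m = m' + 1 := ⟨C.m - 1, by have := hC.hm; have := hC.hn; omega⟩
  obtain rfl : e = m' + 1 + 1 := by omega
  have hgro := fun (i : Fin h) => hGRO (QQ C.m) (BA F) (BB F) m' a (ξ i) hG ha hB1 hNB
    (hM.px i).qB (hM.px i).nB
  refine ⟨h, v, fun i => (-(v i X)).toNat, ?_, ?_, ?_, ?_, ?_, ?_, ?_, ?_, ?_, ?_, ?_, ?_⟩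
  · intro i
    have := hXneg i
    omega
  · exact fun i k k' x y hx hy hx0 hy0 => (hv i).mul x y hx0 hy0 (hQ k x hx) (hQ k' y hy)
  · exact fun i k x y hx hy hx0 hy0 hxy => (hv i).add x y hx0 hy0 hxy (hQ k x hx) (hQ k y hy)
  · intro i
    have := hXneg i
    rw [Int.toNat_of_nonneg (by omega)]
    ring
  · exact fun i c hc => (hv i).v_cst c hc
  · exact fun i k x hx hx0 => (hv i).nonneg x (hBB k x hx) hx0
  · -- hom
    intro i k x l hx hl
    have hx0 : x ≠ 0 := by
      rintro rfl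
      exact hl (coeff_zero l)
    let W : Submodule ℂ (QQ C.m) :=
      { carrier := {y | y ∈ QR C (C.n * r * k) ∧ (y = 0 ∨ v i x ≤ v i y)}
        add_mem' := by
          rintro y z ⟨hy, hy'⟩ ⟨hz, hz'⟩
          refine ⟨(QR C _).add_mem hy hz, ?_⟩
          by_cases hy0 : y = 0
          · rw [hy0, zero_add]; exact hz'
          by_cases hz0 : z = 0
          · rw [hz0, add_zero]; exact hy'
          by_cases hyz : y + z = 0
          · exact Or.inl hyz
          right
          have h1 := hy'.resolve_left hy0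
          have h2 := hz'.resolve_left hz0
          exact (le_min h1 h2).trans
            ((hv i).add y z hy0 hz0 hyz (hQ k y hy) (hQ k z hz))
        zero_mem' := ⟨(QR C _).zero_mem, Or.inl rfl⟩
        smul_mem' := by
          rintro c y ⟨hy, hy'⟩
          refine ⟨(QR C _).smul_mem c hy, ?_⟩
          by_cases hc : c = 0
          · left; rw [hc, zero_smul]
          rcases hy' with h1 | h1
          · left; rw [h1, smul_zero]
          · by_cases hy0 : y = 0
            · left; rw [hy0, smul_zero]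
            right
            rw [(hv i).v_smul c hc y hy0 (hQ k y hy)]
            exact h1 }
    have hW : ∀ y, y ∈ W ↔ y ∈ QR C (C.n * r * k) ∧ (y = 0 ∨ v i x ≤ v i y) := fun y => Iff.rfl
    have hrtx : ∀ c : ℂ, rt C.m c x = ∑ l ∈ Finset.range (x.natDegree + 1),
        c ^ l • (Polynomial.C (x.coeff l) * X ^ l) := by
      intro c
      ext1 j
      rw [hrt, finsetSum_coeff]
      simp only [coeff_smul, coeff_C_mul_X_pow]
      rw [Finset.sum_eq_single j]
      · rw [if_pos rfl]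
      · intro b _ hb
        rw [if_neg (Ne.symm hb), smul_zero]
      · intro hj
        rw [if_pos rfl, coeff_eq_zero_of_natDegree_lt, smul_zero]
        simpa using hj
    have hln : l < x.natDegree + 1 := by
      have := le_natDegree_of_ne_zero hl
      omega
    have key := hVAN (QQ C.m) W (x.natDegree + 1)
      (fun l => Polynomial.C (x.coeff l) * X ^ l) (fun c hc => ?_) l hln
    · obtain ⟨h1, h2⟩ := (hW _).1 key
      have hne : Polynomial.C (x.coeff l) * X ^ l ≠ 0 := by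
        intro h3
        have h4 := congrArg (fun y => coeff y l) h3
        simp only [coeff_C_mul_X_pow, if_true, coeff_zero] at h4
        exact hl h4
      have h3 := h2.resolve_left hne
      have hCne : Polynomial.C (x.coeff l) ≠ 0 := by
        rw [Ne, C_eq_zero]; exact hl
      have hCq : Polynomial.C (x.coeff l) ∈ QR C (C.n * r * k) := by
        intro j
        rw [coeff_C]
        split_ifs
        · exact hx l
        · exact (C.R _).zero_mem
      rw [(hv i).mul _ _ hCne (pow_ne_zero _ hXne) (hQ k _ hCq) (hQX.pow l),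
        (hv i).v_pow X hXne hQX l] at h3
      have h4 := hXneg i
      have h5 : (((-(v i X)).toNat : ℕ) : ℤ) = -(v i X) := Int.toNat_of_nonneg (by omega)
      rw [h5]
      linarith
    · rw [← hrtx c, hW]
      refine ⟨fun j => ?_, Or.inr ?_⟩
      · rw [hrt]; exact (C.R _).smul_mem _ (hx j)
      · rw [inv1 i c hc x hx0 (hQ k x hx)]
  · -- mem
    intro k x hx hx0 hvx
    apply hB2 k x hx
    have hsum : x = ∑ l ∈ Finset.range (x.natDegree + 1), Polynomial.C (x.coeff l) * X ^ l :=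
      x.as_sum_range_C_mul_X_pow
    have h1 := hMEM (QQ C.m) (BA F) X h ξ v hNB hQX hM hv (x.natDegree + 1)
      (fun l => Polynomial.C (x.coeff l)) (fun l => hBB k _ (hB6 k _ (hx l)))
      (by rw [← hsum]; exact hx0) (by rw [← hsum]; exact hvx)
    rw [← hsum] at h1
    exact h1
  · -- unit
    intro i
    obtain ⟨M, hM1, hM2, hM3⟩ := hgro i 1
    have hMne : M ≠ ⊥ := by
      rintro rfl
      rw [finrank_bot] at hM3
      have : 0 < (1 / (m' + 1) + 1) ^ m' := by positivity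
      omega
    obtain ⟨x, hx, hx0⟩ := Submodule.exists_mem_ne_zero_of_ne_bot hMne
    exact ⟨x, hM1 hx, hx0, ((hv i).v_zero_iff x (hBB 1 x (hM1 hx)) hx0).2 (hM2 x hx hx0)⟩
  · -- unif
    intro i
    obtain ⟨y, hy, hy0, hy1⟩ := (hv i).unif
    obtain ⟨n, f, hf, rfl⟩ := dec (BB F) y (by rw [← hB1]; exact hy)
    have hyq : (∑ k ∈ Finset.range n, f k) * ξ i ∈ BA F :=
      ((hv i).pos _ hy hy0).1 (by omega)
    have hfk := hcomp i n f hf hyq
    by_contra hcon
    push Not at hcon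
    have h1 := (hv i).v_sum n f 2 (fun k hk => ?_) (fun m hm => QB_of_mem
      (Subalgebra.sum_mem _ fun l _ => hBB l _ (hf l)))
    · rcases h1 with h1 | h1
      · exact hy0 h1
      · omega
    · by_cases hk0 : f k = 0
      · exact Or.inl hk0
      right
      refine ⟨QB_of_mem (hBB k _ (hf k)), ?_⟩
      have h2 := ((hv i).pos _ (hBB k _ (hf k)) hk0).2 (hfk k hk)
      have h3 := hcon k (f k) (hf k) hk0
      omega
  · -- sep
    intro i
    have hone : ∀ j, j ≠ i → ∃ k, ∃ s ∈ BB F k, s ≠ 0 ∧ v i s = 0 ∧ 1 ≤ v j s := by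
      intro j hj
      obtain ⟨s, hs, hs1, hs2⟩ := hM.inc i j (Ne.symm hj)
      obtain ⟨n, f, hf, rfl⟩ := dec (BB F) s (by rw [← hB1]; exact hs)
      have hfk := hcomp j n f hf hs1
      obtain ⟨k, hk, hk1⟩ : ∃ k, k < n ∧ f k * ξ i ∉ BA F := by
        by_contra hcon
        push Not at hcon
        apply hs2
        rw [Finset.sum_mul]
        exact Subalgebra.sum_mem _ fun l hl => hcon l (Finset.mem_range.1 hl)
      have hk0 : f k ≠ 0 := by
        intro h0
        apply hk1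
        rw [h0, zero_mul]
        exact (BA F).zero_mem
      exact ⟨k, f k, hf k, hk0, ((hv i).v_zero_iff _ (hBB k _ (hf k)) hk0).2 hk1,
        ((hv j).pos _ (hBB k _ (hf k)) hk0).2 (hfk k hk)⟩
    choose! kk ss hss1 hss2 hss3 hss4 using hone
    have hprod : ∀ s : Finset (Fin h), (∀ j ∈ s, j ≠ i) →
        (∏ j ∈ s, ss j) ∈ BB F (∑ j ∈ s, kk j) := by
      intro s
      induction s using Finset.induction_on with
      | empty =>
        intro _
        rw [Finset.prod_empty, Finset.sum_empty, hG.zero]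
        exact Submodule.mem_span_singleton_self 1
      | insert j s hj ih =>
        intro hs
        rw [Finset.prod_insert hj, Finset.sum_insert hj]
        exact hG.mul _ _ _ _ (hss1 j (hs j (Finset.mem_insert_self j s)))
          (ih fun l hl => hs l (Finset.mem_insert_of_mem hl))
    have hE : ∀ j ∈ (Finset.univ.erase i), j ≠ i := fun j hj => Finset.ne_of_mem_erase hj
    have hBE : ∀ j ∈ (Finset.univ.erase i), ss j ∈ BA F ∧ ss j ≠ 0 := fun j hj =>
      ⟨hBB _ _ (hss1 j (hE j hj)), hss2 j (hE j hj)⟩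
    refine ⟨_, _, hprod (Finset.univ.erase i) hE, ((hv i).v_prod _ _ hBE).2.1, ?_, ?_⟩
    · rw [((hv i).v_prod _ _ hBE).2.2]
      exact Finset.sum_eq_zero fun j hj => hss3 j (hE j hj)
    · intro j hj
      rw [((hv j).v_prod _ _ hBE).2.2]
      have hjm : j ∈ Finset.univ.erase i := Finset.mem_erase.2 ⟨hj, Finset.mem_univ j⟩
      calc (1 : ℤ) ≤ v j (ss j) := hss4 j hj
        _ ≤ ∑ l ∈ Finset.univ.erase i, v j (ss l) :=
          Finset.single_le_sum (f := fun l => v j (ss l))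
            (fun l hl => (hv j).nonneg _ (hBE l hl).1 (hBE l hl).2) hjm
  · -- gro
    intro i
    refine ⟨(1 / ((m' : ℝ) + 1)) ^ m', by positivity, 0, fun k _ W hW => ?_⟩
    obtain ⟨M, hM1, hM2, hM3⟩ := hgro i k
    have hfd := hG.fd k
    have hWB : W ≤ BB F k := fun x hx => (hW x hx).1
    have hinf : W ⊓ M = ⊥ := by
      rw [Submodule.eq_bot_iff]
      rintro x ⟨hx1, hx2⟩
      by_contra hx0
      obtain ⟨h1, h2⟩ := hW x hx1
      exact hM2 x hx2 hx0 (((hv i).pos x (hBB k x h1) hx0).1 (h2 hx0))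
    have hfW : FiniteDimensional ℂ W := Submodule.finiteDimensional_of_le hWB
    have hfM : FiniteDimensional ℂ M := Submodule.finiteDimensional_of_le hM1
    have h1 := Submodule.finrank_sup_add_finrank_inf_eq W M
    rw [hinf, finrank_bot, add_zero] at h1
    have h2 : Module.finrank ℂ (W ⊔ M : Submodule ℂ (QQ C.m)) ≤ Module.finrank ℂ (BB F k) :=
      Submodule.finrank_mono (sup_le hWB hM1)
    have h3 : Module.finrank ℂ W + (k / (m' + 1) + 1) ^ m' ≤ Module.finrank ℂ (BB F k) := by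
      omega
    have h4 : (Module.finrank ℂ W : ℝ) + ((k / (m' + 1) : ℕ) + 1 : ℝ) ^ m' ≤
        Module.finrank ℂ (BB F k) := by exact_mod_cast h3
    have h5 : (k : ℝ) / (m' + 1) ≤ ((k / (m' + 1) : ℕ) : ℝ) + 1 := by
      rw [div_le_iff₀ (by positivity)]
      have h6 : k < (m' + 1) * (k / (m' + 1) + 1) := Nat.lt_mul_div_succ k (by positivity)
      have h7 : (k : ℝ) < (m' + 1) * ((k / (m' + 1) : ℕ) + 1) := by exact_mod_cast h6
      linarith
    have h6 : (k : ℝ) ^ (C.m - 1) = (k : ℝ) ^ m' := by rw [hm']; rfl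
    rw [h6, ← mul_pow]
    have h7 : (1 / ((m' : ℝ) + 1) * k) ^ m' ≤ ((k / (m' + 1) : ℕ) + 1 : ℝ) ^ m' := by
      refine pow_le_pow_left₀ (by positivity) ?_ m'
      calc 1 / ((m' : ℝ) + 1) * k = (k : ℝ) / (m' + 1) := by ring
        _ ≤ _ := h5
    linarith

end Pool.Agent.Helper65.KPV
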