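import Pool.Agent.Helper5.KPA.Itf2

/-!
# PROJECT KP (MP_26be5b_ag), chapter A, part V: the valuations of the vertical prime divisors

TARGET: `Pool.Agent.Helper5.KPA.StAVL`.  All modules are independent (statements used are
hypotheses).  For every statement `StXXX` prove `theorem hXXX : StXXX` (with the listed inputs as
hypotheses).  `S` is a domain, `B ⊆ S` a subalgebra.
-/

set_option autoImplicit false

namespace Pool.Agent.Helper65.KPV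

open Pool.Agent.Helper52.KP Pool.Agent.Helper5.KPA

section Abs

variable {S : Type} [CommRing S] [Algebra ℂ S]

/-- `x` is a quotient of elements of `B` -/
def QB (B : Subalgebra ℂ S) (x : S) : Prop := ∃ s ∈ B, s ≠ 0 ∧ s * x ∈ B

/-- `B` is Noetherian and contains the quotients which are integral -/
structure NB (B : Subalgebra ℂ S) : Prop where
  noeth : IsNoetherianRing B
  ic : ∀ x : S, QB B x → IsIntegral B x → x ∈ B

/-- `q(ξ) = {s ∈ B : s ξ ∈ B}` is a prime ideal, not `0` and not `B` -/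
structure PX (B : Subalgebra ℂ S) (ξ : S) : Prop where
  nB : ξ ∉ B
  qB : QB B ξ
  prime : ∀ s ∈ B, ∀ t ∈ B, s * t * ξ ∈ B → s * ξ ∈ B ∨ t * ξ ∈ B

/-- `v` is the valuation of the prime ideal `q(ξ)` (on nonzero elements with `QB`) -/
structure PV (B : Subalgebra ℂ S) (ξ : S) (v : S → ℤ) : Prop where
  px : PX B ξ
  mul : ∀ x y, x ≠ 0 → y ≠ 0 → QB B x → QB B y → v (x * y) = v x + v y
  add : ∀ x y, x ≠ 0 → y ≠ 0 → x + y ≠ 0 → QB B x → QB B y → min (v x) (v y) ≤ v (x + y)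
  nonneg : ∀ x ∈ B, x ≠ 0 → 0 ≤ v x
  pos : ∀ x ∈ B, x ≠ 0 → (1 ≤ v x ↔ x * ξ ∈ B)
  loc : ∀ x, x ≠ 0 → QB B x → 0 ≤ v x → ∃ h ∈ B, h * ξ ∉ B ∧ h * x ∈ B
  xi : v ξ = -1
  unif : ∃ y ∈ B, y ≠ 0 ∧ v y = 1

/-- the `q(ξ i)` are the minimal primes of the ideal `I = {s ∈ B : s τ ∈ B}` -/
structure MP (B : Subalgebra ℂ S) (τ : S) {h : ℕ} (ξ : Fin h → S) : Prop where
  px : ∀ i, PX B (ξ i)
  le : ∀ i, ∀ s ∈ B, s * τ ∈ B → s * ξ i ∈ B
  inc : ∀ i j, i ≠ j → ∃ s ∈ B, s * ξ j ∈ B ∧ s * ξ i ∉ B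
  all : ∀ ζ, PX B ζ → (∀ s ∈ B, s * τ ∈ B → s * ζ ∈ B) → ∃ i, ∀ s ∈ B, s * ξ i ∈ B → s * ζ ∈ B

/-- an action of the group `ℂ*` on `S` by ring automorphisms which preserves `B` and `I` -/
structure RT (B : Subalgebra ℂ S) (τ : S) (σ : ℂ → S →ₐ[ℂ] S) : Prop where
  one : ∀ x, σ 1 x = x
  mul : ∀ c c' x, c ≠ 0 → c' ≠ 0 → σ (c * c') x = σ c (σ c' x)
  stab : ∀ c, c ≠ 0 → ∀ x ∈ B, σ c x ∈ B
  idl : ∀ c, c ≠ 0 → ∀ s ∈ B, s * τ ∈ B → σ c s * τ ∈ B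

end Abs

/-- MODULE DVR (150 lines, strong).  The localisation of `B` at `q(ξ)` is a discrete valuation ring.
PROOF.  Write `s ∈ q` for `s ∈ B, s ξ ∈ B`.  `ξ ≠ 0` (`0 ∈ B`).  `B \ q` is multiplicative (`PX.prime`), `1 ∉ q`.
(1) There is `y ∈ q` with `u = y ξ ∉ q`: otherwise `N = {s : s ∈ B, s ξ ∈ B}`, a `B`-submodule of `S`, is stable
under multiplication by `ξ`, nonzero (`QB`) and finitely generated (it is the image of an ideal of the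
Noetherian ring `B`), so `ξ` is integral over `B` (`isIntegral_of_smul_mem_submodule`), so `ξ ∈ B` by
`NB.ic`, a contradiction.
(2) If `h ∈ B \ q` and `e ≥ 1` then `h ξ^e ∉ B`: otherwise `(h ξ)^e = h^(e-1) (h ξ^e) ∈ B`, so `h ξ` is integral
(`IsIntegral.of_pow`), `QB (h ξ)`, so `h ξ ∈ B`.
(3) For `0 ≠ x ∈ B` there is `j` with `x ξ^i ∈ B` for all `i ≤ j` and `x ξ^(j+1) ∉ B`: otherwise all `x ξ^i ∈ B`,
the `B`-submodule spanned by them is contained in `B`, so finitely generated, nonzero and stable under `ξ`,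
so `ξ ∈ B` as in (1).
(4) Say `R x j` (`j : ℤ`) if there are `a b : ℕ`, `h, h' ∈ B \ q` with `j = a - b`, `h x ξ^a = h' ξ^b`.  For `x ≠ 0`,
`QB x` there is exactly one such `j`.  Existence: `s x = t`, `s, t ∈ B` nonzero; by (3) `s ξ^i = g ∉ q`,
`t ξ^j = g' ∉ q`, so `g x ξ^j = g' ξ^i`.  Uniqueness: from `h x ξ^a = h' ξ^b`, `g x ξ^a' = g' ξ^b'` we get (cancel
`x`) `h g' ξ^(a+b') = h' g ξ^(b+a')`; if `a + b' > b + a'` cancel and use (2); the same if `<`.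
`v x` = this `j` (choice; `0` for other `x`).
(5) `mul`: multiply the two equations.  (6) `nonneg`: by (3) `R x j` with `h = 1`, `h' = x ξ^j`, `b = 0`.  `pos`: this
`j` is `≥ 1` iff `x ξ ∈ B`.  `xi`: `1 ξ ξ^0 = 1 ξ^1`.  `unif`: `y` of (1): `1 y ξ^1 = u ξ^0`.
(7) `loc`: `h x ξ^a = h' ξ^b` with `a ≥ b`, cancel: `h x ξ^(a-b) = h'`, multiply with `y^(a-b)`:
`(h u^(a-b)) x = h' y^(a-b) ∈ B`, `h u^(a-b) ∉ q`.
(8) `add`: let `v x = a - b ≤ v y' = a' - b'` (names: `h x ξ^a = h' ξ^b`, `k y' ξ^a' = k' ξ^b'`), `z = x + y' ≠ 0`,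
`QB z`, `g z ξ^a'' = g' ξ^b''` and suppose `a'' - b'' < a - b`.  Then
`g' h k ξ^(b''+a+a') = z g h k ξ^(a+a'+a'') = h' k g ξ^(b+a'+a'') + k' h g ξ^(b'+a+a'')`, where
`b'' + a + a' > b + a' + a'' ≥ b' + a + a''`.  Cancel: `g' h k ξ^E = h' k g ξ^e + k' h g`, `E > e`; multiply with `y^e`
(`y ξ = u`): `g' h k u^e ξ^(E-e) = h' k g u^e + k' h g y^e ∈ B`, a contradiction to (2). -/
def StDVR : Prop := ∀ (S : Type) [CommRing S] [IsDomain S] [Algebra ℂ S] (B : Subalgebra ℂ S)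
  (ξ : S), NB B → PX B ξ → ∃ v : S → ℤ, PV B ξ v

/-- MODULE UNQ (80 lines).
PROOF.  (a) If `v x = 0` then `v' x = 0`: by `loc` there is `h ∈ B \ q` with `h x ∈ B`; `v h = 0` (`pos`, `nonneg`), so
`v (h x) = 0`, `h x ∉ q`, so also `v' h = 0 = v' (h x)` (`pos` for `v'`).  (b) If `v x = j ≥ 0` then `v (x ξ^j) = 0`, so
`v' x = - j v' ξ`.  (c) If `v x = - j < 0` take `0 ≠ z ∈ B` with `v z ≥ 1` (`unif`): `v (x z^j) ≥ 0`, so by (b) for
`x z^j` and for `z`: `v' x = - (v x) (v' ξ)`.  So `v' x = - (v' ξ) (v x)` for all `x`.  By symmetry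
`v x = - (v ξ') (v' x)`; with `x = ξ'`: `-1 = v' ξ' = - (v' ξ) (v ξ')`, so `v' ξ = ± 1`, and `v' ξ < 0` because `v z ≥ 1`
and `v' z ≥ 1` for `0 ≠ z ∈ q`.  (`QB` is stable under products and powers; `ξ ≠ 0`.) -/
def StUNQ : Prop := ∀ (S : Type) [CommRing S] [IsDomain S] [Algebra ℂ S] (B : Subalgebra ℂ S)
  (ξ ξ' : S) (v v' : S → ℤ), PV B ξ v → PV B ξ' v' → (∀ s ∈ B, s * ξ ∈ B ↔ s * ξ' ∈ B) →
  ∀ x, x ≠ 0 → QB B x → v x = v' x

/-- MODULE EQM (60 lines, uses StDVR).  These primes have height one.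
PROOF.  Let `v` be the valuation for `ζ` (StDVR), `y` from `unif`, `u = y ζ ∈ B` (`pos`), `v u = 0`, so `u ∉ q(ζ)`.
Let `0 ≠ s ∈ q(ξ)` (`QB`), `j = v s ≥ 0`.  `v (s ζ^j) = 0`, so by `loc` there is `h ∉ q(ζ)` with
`h s ζ^j = h' ∈ B`, `v h' = 0`, `h' ∉ q(ζ)`, so `h' ∉ q(ξ)`.  `h s u^j = h' y^j`, so `h' y^j ∈ q(ξ)`, `y^j ∈ q(ξ)`
(`j ≥ 1`, otherwise `h' ∈ q(ξ)`), `y ∈ q(ξ)`.  For `t ∈ q(ζ)`: `u t = y (t ζ) ∈ q(ξ)`, `u ∉ q(ξ)`, so
`t ∈ q(ξ)`. -/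
def StEQM : Prop := ∀ (S : Type) [CommRing S] [IsDomain S] [Algebra ℂ S] (B : Subalgebra ℂ S)
  (ξ ζ : S), NB B → PX B ξ → PX B ζ → (∀ s ∈ B, s * ξ ∈ B → s * ζ ∈ B) →
  ∀ s ∈ B, s * ζ ∈ B → s * ξ ∈ B

/-- MODULE MIN (120 lines, ideals).
PROOF.  `I : Ideal B`, `I = {s : s τ ∈ B}`, not `0` (`QB`).  `B` is Noetherian, so `I.minimalPrimes` is finite
(`Ideal.finite_minimalPrimes_of_isNoetherianRing`); enumerate it as `q_i`, `i : Fin h`.  Minimal primes of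
`I = annihilator (B / I)` are associated primes of `B / I`
(`Module.associatedPrimes.minimalPrimes_annihilator_subset_associatedPrimes`, `Ideal.annihilator_quotient`), so
there is `y_i ∈ B` with `q_i = {s : s y_i ∈ I} = {s : s y_i τ ∈ B}`: `ξ_i = y_i τ`.  `PX`: `q_i` is prime, not `B`, and
contains `I ≠ 0`.  `inc`: different minimal primes are not contained in each other.  `all`: `q(ζ)` is (the set of
elements of) a prime ideal which contains `I`, so it contains a minimal prime (`Ideal.exists_minimalPrimes_le`). -/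
def StMIN : Prop := ∀ (S : Type) [CommRing S] [IsDomain S] [Algebra ℂ S] (B : Subalgebra ℂ S)
  (τ : S), NB B → QB B τ → ∃ (h : ℕ) (ξ : Fin h → S), MP B τ ξ

/-- MODULE MEM (120 lines, uses StEQM).
PROOF.  `x = ∑_(l<n) b_l τ^l`.  If `s ∈ B`, `s τ ∈ B` then `s^n x ∈ B` (`s^n τ^l = s^(n-l) (s τ)^l`).  In particular `QB x`
(`QB τ`).  Suppose `x ∉ B`.  `J = {s ∈ B : s x ∈ B}` is an ideal `≠ B` of the Noetherian ring `B`; an
associated prime of `B / J` (`associatedPrimes.nonempty`) gives `h₀ ∈ B` such that `P = {s ∈ B : s h₀ x ∈ B}` is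
prime (`h₀ x ∉ B`); put `ζ = h₀ x`: `PX B ζ`.  If `s ∈ B`, `s τ ∈ B` then `s^n ζ ∈ B`, `s^n ∈ P`, `s ∈ P`.  By `MP.all` there is
`i` with `q(ξ_i) ⊆ q(ζ)`, and `q(ζ) ⊆ q(ξ_i)` by StEQM.  As `0 ≤ v_i x` there is (`PV.loc`) `h ∈ B`, `h ξ_i ∉ B`,
`h x ∈ B`.  Then `h ζ ∈ B`, so `h ξ_i ∈ B`, a contradiction. -/
def StMEM : Prop := ∀ (S : Type) [CommRing S] [IsDomain S] [Algebra ℂ S] (B : Subalgebra ℂ S)
  (τ : S) (h : ℕ) (ξ : Fin h → S) (v : Fin h → S → ℤ), NB B → QB B τ → MP B τ ξ →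
  (∀ i, PV B (ξ i) (v i)) → ∀ (n : ℕ) (b : ℕ → S), (∀ l, b l ∈ B) →
  (∑ l ∈ Finset.range n, b l * τ ^ l) ≠ 0 →
  (∀ i, 0 ≤ v i (∑ l ∈ Finset.range n, b l * τ ^ l)) → (∑ l ∈ Finset.range n, b l * τ ^ l) ∈ B

/-- MODULE PRM (30 lines).  The group `ℂ*` has no nontrivial action on a finite set.
PROOF.  `f c` is a permutation (inverse `f c⁻¹`), `c ↦ f c` is a homomorphism to the finite group
`Equiv.Perm (Fin h)` of order `N > 0`; `c = c'^N` for some `c' ≠ 0` (`IsAlgClosed.exists_pow_nat_eq`), so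
`f c = (f c')^N = 1`. -/
def StPRM : Prop := ∀ (h : ℕ) (f : ℂ → Fin h → Fin h), (∀ i, f 1 i = i) →
  (∀ c c' i, c ≠ 0 → c' ≠ 0 → f (c * c') i = f c (f c' i)) → ∀ c i, c ≠ 0 → f c i = i

/-- MODULE INV (100 lines, uses StPRM).  The minimal primes are invariant.
PROOF.  `σ c` is bijective with inverse `σ c⁻¹`, and `σ c` maps `B` onto `B`, `I` onto `I`.  For `c ≠ 0` and `i`:
`q(σ_c ξ_i) = {s ∈ B : s σ_c(ξ_i) ∈ B} = σ_c (q(ξ_i))` (apply `σ c⁻¹`), `PX B (σ_c ξ_i)`, and it contains `I`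
(`RT.idl` for `c⁻¹`), so by `MP.all` there is `j` with `q(ξ_j) ⊆ σ_c (q(ξ_i))`; likewise there is `k` with
`q(ξ_k) ⊆ σ_(c⁻¹) (q(ξ_j)) ⊆ q(ξ_i)`, so `k = i` (`MP.inc`) and `q(ξ_j) = σ_c (q(ξ_i))`.  `j` is unique
(`MP.inc`): `f c i = j`.  `f 1 = id`, `f (c c') = f c ∘ f c'`.  By StPRM `f c i = i`, so
`σ_c (q(ξ_i)) = q(ξ_i)`. -/
def StINV : Prop := ∀ (S : Type) [CommRing S] [IsDomain S] [Algebra ℂ S] (B : Subalgebra ℂ S)
  (τ : S) (h : ℕ) (ξ : Fin h → S) (σ : ℂ → S →ₐ[ℂ] S), MP B τ ξ → RT B τ σ →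
  ∀ c : ℂ, c ≠ 0 → ∀ i, ∀ s ∈ B, s * ξ i ∈ B ↔ σ c s * ξ i ∈ B

/-- MODULE INW (60 lines, uses StUNQ).  The valuation of an invariant prime is invariant.
PROOF.  `ξ' = σ_(c⁻¹) ξ`, `v' x = v (σ_c x)`.  `σ_c` is an automorphism of `S` which maps `B` onto `B`, so all fields of
`PV B ξ' v'` follow from `PV B ξ v` by transport (`QB x ↔ QB (σ_c x)`, `s ξ' ∈ B ↔ σ_c s ξ ∈ B`).  For `s ∈ B`:
`s ξ' ∈ B ↔ σ_c s ξ ∈ B ↔ s ξ ∈ B` by hypothesis.  StUNQ. -/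
def StINW : Prop := ∀ (S : Type) [CommRing S] [IsDomain S] [Algebra ℂ S] (B : Subalgebra ℂ S)
  (τ ξ : S) (v : S → ℤ) (σ : ℂ → S →ₐ[ℂ] S), PV B ξ v → RT B τ σ → ∀ c : ℂ, c ≠ 0 →
  (∀ s ∈ B, s * ξ ∈ B ↔ σ c s * ξ ∈ B) → ∀ x, x ≠ 0 → QB B x → v (σ c x) = v x

/-- MODULE VAN (50 lines; Vandermonde).
PROOF.  Take `n` different nonzero numbers `c_i` (`i + 1`); the Vandermonde matrix is invertible
(`Matrix.det_vandermonde_ne_zero_iff`), so every `x_l` is a linear combination of the `∑_l c_i^l x_l ∈ W`. -/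
def StVAN : Prop := ∀ (V : Type) [AddCommGroup V] [Module ℂ V] (W : Submodule ℂ V) (n : ℕ)
  (x : ℕ → V), (∀ c : ℂ, c ≠ 0 → ∑ l ∈ Finset.range n, c ^ l • x l ∈ W) → ∀ l, l < n → x l ∈ W

/-- MODULE GRO (150 lines, strong; copy `rga_val`, `rga_mono`, `rga_int`, `rga_int'` from
Pool/Agent/Helper41/KP/M_RGA.lean, they are private there).
PROOF.  `P = MvPolynomial (Fin (m+2)) ℂ`, `L = FractionRing S`, `Algebra P L` through `a`.  Every element of `B` is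
integral over `ℂ[a]`: `G 0 + .. + G D` (`NN.fg`) spans over `ℂ[a]` a finitely generated module which contains all
`G k` (induction), so it is `B`, it contains `1`; so `B` is a finite `ℂ[a]`-module.  `ξ` is a quotient of
elements of `B`, so it is algebraic over `P`; it is not integral over `P` (otherwise integral over `B`,
`ξ ∈ B` by `NB.ic`).  `rga_val`: a valuation subring `A` of `L`, `P ⊆ A`, so `B ⊆ A` (`A` is integrally closed), `ξ ∉ A`,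
`p⁻¹ ∈ A` for `p ∉ (g)`, `g` prime.  `rga_mono` for the images of the `G k` in `L` gives `M'`, the image of a subspace
`M ≤ G k`, whose nonzero elements have valuation `1`.  If `0 ≠ e ∈ M` and `e ξ ∈ B` then
`A.valuation ξ = A.valuation (e ξ) ≤ 1`, a contradiction. -/
def StGRO : Prop := ∀ (S : Type) [CommRing S] [IsDomain S] [Algebra ℂ S] (B : Subalgebra ℂ S)
  (G : ℕ → Submodule ℂ S) (m : ℕ) (a : Fin (m + 1 + 1) → S) (ξ : S), GrA G → NN G a →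
  Subalgebra.toSubmodule B = ⨆ k, G k → NB B → QB B ξ → ξ ∉ B → ∀ k, ∃ M : Submodule ℂ S,
    M ≤ G k ∧ (∀ e ∈ M, e ≠ 0 → e * ξ ∉ B) ∧ (k / (m + 1) + 1) ^ m ≤ Module.finrank ℂ M

/-- the algebra `B` of a nice filtration -/
noncomputable def BA {m : ℕ} (F : ℕ → ℕ → Submodule ℂ (MvPolynomial (Fin m) ℂ)) :
    Subalgebra ℂ (QQ m) :=
  Algebra.adjoin ℂ {b : Polynomial (MvPolynomial (Fin m) ℂ) |
    ∃ k l f, f ∈ F k l ∧ b = Polynomial.C f * Polynomial.X ^ l}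

/-- MODULE BAA (120 lines, uses StAGR StVAN).
PROOF.  `⨆ BB F k` is closed under multiplication (`GrA.mul`) and contains `1` and the generators, and each
`x ∈ BB F k` is the sum of the `C (x_l) X^l`, `x_l ∈ F k l`.  (iii) Let `x ∈ QR C (n r k)` and
`x = ∑_j x_j`, `x_j ∈ BB F j ⊆ QR C (n r j)`.  The spaces `QR C (n r j)` are independent (for `c ≠ 0` the
coefficients satisfy `f(scl c z) = c^(n r j) f(z)`, different exponents as `n r > 0`), so `x = x_k ∈ BB F k`.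
(v) `X ∈ QR C 0`; if `X ∈ B` then `X ∈ BB F 0`, `1 ∈ F 0 1 = ⊥`, a contradiction.  (vi) `F k 0 = R (n r k)`. -/
def StBAA : Prop := ∀ (C : Cone), Good C → ∀ r F, NF C r F →
  Subalgebra.toSubmodule (BA F) = (⨆ k, BB F k) ∧
  (∀ k, ∀ x ∈ QR C (C.n * r * k), x ∈ BA F → x ∈ BB F k) ∧ (∀ k, BB F k ≤ QR C (C.n * r * k)) ∧
  Polynomial.X ∉ BA F ∧ (Polynomial.X : QQ C.m) ∈ QR C (C.n * r * 0) ∧
  ∀ k, ∀ f ∈ C.R (C.n * r * k), Polynomial.C f ∈ BB F k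

/-- MODULE BAB (100 lines, uses StAGR StBAA).
PROOF.  Noetherian: `B` is generated by a basis of `BB F 1` as an algebra (`GrA.gen`, `GrA.zero`), so it is a
finitely generated `ℂ`-algebra (`Algebra.FiniteType.isNoetherianRing`).  `ic`: let `s ∈ B`, `s ≠ 0`, `s x = t ∈ B`,
`x` integral over `B`.  In `K = FractionRing B` the element `t / s` is integral over `B`: `K` embeds into
`FractionRing (QQ m)` (`B ⊆ QQ m` injective), where `t / s` is the image of `x`; a monic equation of `x` over `B`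
is one of `t / s` (injectivity).  `NF.normal` (`IsIntegrallyClosed B`) gives `b ∈ B` with `t / s = b`, so `t = s b`,
`x = b`. -/
def StBAB : Prop := ∀ (C : Cone), Good C → ∀ r F, NF C r F → NB (BA F)

/-- MODULE BAC (80 lines, uses StAGR StBAA).
PROOF.  Some `X_i ≠ 0` (`Good.Xpos`; `U` is not empty as `Δ ≠ 0`, `Good.Δ0`), `f = X_i^(n r L) ∈ R (n r L)`
(`Good.mul`, `XR`), `f ≠ 0`, `L = natDegree x`.  `s = C f ∈ BB F L`, `s x` has the coefficients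
`f x_l ∈ R (n r (L + k)) = F (L + k) l` for `l ≤ L` (StAGR) and `0` for `l > L`; so `s x ∈ BB F (L + k)`. -/
def StBAC : Prop := ∀ (C : Cone), Good C → ∀ r F, NF C r F →
  ∀ k, ∀ x ∈ QR C (C.n * r * k), QB (BA F) x

/-- rotation of `τ`: `x(z, τ) ↦ x(z, c τ)` -/
noncomputable def rt (m : ℕ) (c : ℂ) : QQ m →ₐ[ℂ] QQ m :=
  (Polynomial.aeval (Polynomial.C (MvPolynomial.C c) * Polynomial.X) :
    QQ m →ₐ[MvPolynomial (Fin m) ℂ] QQ m).restrictScalars ℂ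

/-- rotation of `z`: `x(z, τ) ↦ x(scl w c z, τ)` -/
noncomputable def zt {m : ℕ} (w : Fin m → ℕ) (c : ℂ) : QQ m →ₐ[ℂ] QQ m :=
  Polynomial.mapAlgHom (MvPolynomial.aeval fun j => MvPolynomial.C (c ^ w j) * MvPolynomial.X j)

/-- MODULE ROT (120 lines, uses StAGR StBAA).
PROOF.  `(rt c x)_l = c^l x_l`, so `rt c` preserves every `BB F k`; `zt w c x = c^k x` for `x ∈ QR C k` by
`Good.hom` (evaluate the coefficients; `MvPolynomial.funext`), so `zt` preserves `BB F k ⊆ QR C (n r k)`.  `B` is the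
sum of the `BB F k` (StBAA).  `RT.idl`: `s ∈ B`, `s X ∈ B`: `rt c (s X) = c (rt c s) X ∈ B`, and `c ≠ 0`;
`zt c (s X) = (zt c s) X ∈ B`. -/
def StROT : Prop := ∀ (C : Cone), Good C → ∀ r F, NF C r F →
  RT (BA F) Polynomial.X (rt C.m) ∧ RT (BA F) Polynomial.X (zt C.w) ∧
  (∀ (c : ℂ) (x : QQ C.m) (l : ℕ), (rt C.m c x).coeff l = c ^ l • x.coeff l) ∧
  ∀ (c : ℂ) (k : ℕ), ∀ x ∈ QR C k, zt C.w c x = c ^ k • x

end Pool.Agent.Helper65.KPV
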